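import Mathlib

/-!
# MP_eb30e1_co, Q1: the smallest number of orders with the fixed point property in a maximal chain

For `n ≥ 1`, `n ≠ 2`, the smallest number of members with the fixed point property of a maximal
chain of order relations on an `n`-element set is `⌊n / 2⌋ + 1`; for `n = 2` it is `1`.
-/

open Relation

namespace Pool.Agent.Results.MP_eb30e1_co.FewestFPP

/-- The fixed point property of the relation `r`: every `r`-preserving map has a fixed point. -/
def HasFPP {α : Type} (r : α → α → Prop) : Prop :=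
  ∀ f : α → α, (∀ x y, r x y → r (f x) (f y)) → ∃ x, f x = x

/-- `s` arises from `r` by adding exactly one pair. -/
def AddsOne {α : Type} (r s : α → α → Prop) : Prop :=
  ∃ x y, ¬ r x y ∧ ∀ a b, s a b ↔ (r a b ∨ (a = x ∧ b = y))

/-- `r 0, r 1, …, r (n choose 2)` is a maximal chain of order relations on `Fin n`: it starts at the
discrete order, ends at a linear order, and each step adds exactly one pair. -/
structure IsMaximalChain (n : ℕ) (r : ℕ → Fin n → Fin n → Prop) : Prop where
  start : ∀ a b, r 0 a b ↔ a = b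
  order : ∀ i ≤ n.choose 2, IsPartialOrder (Fin n) (r i)
  step : ∀ i < n.choose 2, AddsOne (r i) (r (i + 1))
  last : ∀ a b, r (n.choose 2) a b ∨ r (n.choose 2) b a

open Classical in
/-- The number of members of the chain `r 0, …, r (n choose 2)` with the fixed point property. -/
noncomputable def fppCount (n : ℕ) (r : ℕ → Fin n → Fin n → Prop) : ℕ :=
  ((Finset.range (n.choose 2 + 1)).filter (fun i => HasFPP (r i))).card

/-! ### Fixed points -/

theorem fix_of_le {α : Type} [Finite α] {r : α → α → Prop} (hr : IsPartialOrder α r) (f : α → α)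
    (hf : ∀ x y, r x y → r (f x) (f y)) (a : α) (h : r a (f a)) : ∃ x, f x = x := by
  let _ : PartialOrder α :=
    { le := r
      le_refl := fun x => hr.refl x
      le_trans := fun x y z => hr.trans x y z
      le_antisymm := fun x y => hr.antisymm x y }
  have hfin : {x : α | r x (f x)}.Finite := Set.toFinite _
  obtain ⟨m, hm⟩ := hfin.exists_maximal ⟨a, h⟩
  have h1 : r m (f m) := hm.prop
  have h2 : r (f m) (f (f m)) := hf _ _ h1
  have h3 : f m ≤ m := hm.le_of_ge h2 h1
  exact ⟨m, le_antisymm h3 h1⟩

theorem flip_po {α : Type} {r : α → α → Prop} (hr : IsPartialOrder α r) :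
    IsPartialOrder α (fun x y => r y x) where
  refl x := hr.refl x
  trans x y z h1 h2 := hr.trans z y x h2 h1
  antisymm x y h1 h2 := hr.antisymm x y h2 h1

theorem fix_of_comp {α : Type} [Finite α] {r : α → α → Prop} (hr : IsPartialOrder α r) (f : α → α)
    (hf : ∀ x y, r x y → r (f x) (f y)) (a : α) (h : r a (f a) ∨ r (f a) a) : ∃ x, f x = x := by
  rcases h with h | h
  · exact fix_of_le hr f hf a h
  · exact fix_of_le (flip_po hr) f (fun x y hxy => hf _ _ hxy) a h

/-- without the fixed point property every element is incomparable to some element -/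
theorem exists_incomp {α : Type} [Finite α] {r : α → α → Prop} (hr : IsPartialOrder α r)
    (h : ¬ HasFPP r) (x : α) : ∃ y, ¬ r x y ∧ ¬ r y x := by
  by_contra hcon
  push Not at hcon
  apply h
  intro f hf
  refine fix_of_comp hr f hf x ?_
  by_cases h1 : r x (f x)
  · exact Or.inl h1
  · exact Or.inr (hcon _ h1)

/-! ### Counting pairs -/

open Classical in
/-- the strict pairs of a relation -/
noncomputable def sp {α : Type} [Fintype α] (r : α → α → Prop) : Finset (α × α) :=
  Finset.univ.filter (fun p => p.1 ≠ p.2 ∧ r p.1 p.2)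

open Classical in
/-- the ordered incomparable pairs -/
noncomputable def ic {α : Type} [Fintype α] (r : α → α → Prop) : Finset (α × α) :=
  Finset.univ.filter (fun p => ¬ r p.1 p.2 ∧ ¬ r p.2 p.1)

theorem mem_sp {α : Type} [Fintype α] {r : α → α → Prop} {p : α × α} :
    p ∈ sp r ↔ p.1 ≠ p.2 ∧ r p.1 p.2 := by simp [sp]

theorem mem_ic {α : Type} [Fintype α] {r : α → α → Prop} {p : α × α} :
    p ∈ ic r ↔ ¬ r p.1 p.2 ∧ ¬ r p.2 p.1 := by simp [ic]

theorem sp_add {α : Type} [Fintype α] {r s : α → α → Prop} (hr : ∀ a, r a a)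
    (h : AddsOne r s) : (sp s).card = (sp r).card + 1 := by
  classical
  obtain ⟨x, y, hxy, hs⟩ := h
  have hne : x ≠ y := by
    rintro rfl
    exact hxy (hr _)
  have : sp s = insert (x, y) (sp r) := by
    ext ⟨a, b⟩
    rw [Finset.mem_insert, mem_sp, mem_sp]
    simp only [hs, Prod.mk.injEq]
    constructor
    · rintro ⟨h1, h2 | h2⟩
      · exact Or.inr ⟨h1, h2⟩
      · exact Or.inl h2
    · rintro (⟨rfl, rfl⟩ | ⟨h1, h2⟩)
      · exact ⟨hne, Or.inr ⟨rfl, rfl⟩⟩
      · exact ⟨h1, Or.inl h2⟩
  rw [this, Finset.card_insert_of_notMem]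
  rw [mem_sp]
  rintro ⟨_, h⟩
  exact hxy h

theorem sp_ic {α : Type} [Fintype α] {r : α → α → Prop} (hr : IsPartialOrder α r) :
    2 * (sp r).card + (ic r).card = 2 * (Fintype.card α).choose 2 := by
  classical
  have h1 : ((sp r).image Prod.swap).card = (sp r).card :=
    Finset.card_image_of_injective _ Prod.swap_injective
  have h2 : (sp r ∪ (sp r).image Prod.swap) ∪ ic r = (Finset.univ : Finset α).offDiag := by
    ext ⟨a, b⟩
    simp only [Finset.mem_union, Finset.mem_image, mem_sp, mem_ic, Finset.mem_offDiag,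
      Finset.mem_univ, true_and, Prod.exists, Prod.swap_prod_mk, Prod.mk.injEq]
    constructor
    · rintro ((⟨h, _⟩ | ⟨c, d, ⟨h, _⟩, rfl, rfl⟩) | ⟨h, _⟩)
      · exact h
      · exact h.symm
      · rintro rfl
        exact h (hr.refl _)
    · intro h
      by_cases hab : r a b
      · exact Or.inl (Or.inl ⟨h, hab⟩)
      · by_cases hba : r b a
        · exact Or.inl (Or.inr ⟨b, a, ⟨h.symm, hba⟩, rfl, rfl⟩)
        · exact Or.inr ⟨hab, hba⟩
  have h3 : Disjoint (sp r) ((sp r).image Prod.swap) := by
    rw [Finset.disjoint_left]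
    rintro ⟨a, b⟩ ha hb
    simp only [Finset.mem_image, mem_sp, Prod.exists, Prod.swap_prod_mk, Prod.mk.injEq] at ha hb
    obtain ⟨c, d, ⟨h, h'⟩, rfl, rfl⟩ := hb
    exact ha.1 (hr.antisymm _ _ ha.2 h')
  have h4 : Disjoint (sp r ∪ (sp r).image Prod.swap) (ic r) := by
    rw [Finset.disjoint_left]
    rintro ⟨a, b⟩ ha hb
    simp only [Finset.mem_union, Finset.mem_image, mem_sp, mem_ic, Prod.exists,
      Prod.swap_prod_mk, Prod.mk.injEq] at ha hb
    rcases ha with ha | ⟨c, d, ⟨h, h'⟩, rfl, rfl⟩
    · exact hb.1 ha.2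
    · exact hb.2 h'
  have h5 := congrArg Finset.card h2
  rw [Finset.card_union_of_disjoint h4, Finset.card_union_of_disjoint h3, h1,
    Finset.offDiag_card, Finset.card_univ] at h5
  have h6 := Nat.triangle_succ
  have h7 : 2 * (Fintype.card α).choose 2 = Fintype.card α * Fintype.card α - Fintype.card α := by
    rw [Nat.choose_two_right, Nat.mul_div_cancel' (Nat.even_mul_pred_self _).two_dvd,
      Nat.mul_sub_one]
  omega

theorem sp_chain {n : ℕ} {r : ℕ → Fin n → Fin n → Prop} (h : IsMaximalChain n r) :
    ∀ i ≤ n.choose 2, (sp (r i)).card = i := by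
  intro i
  induction i with
  | zero =>
    intro _
    rw [Finset.card_eq_zero]
    ext p
    rw [mem_sp, h.start]
    simp
  | succ i ih =>
    intro hi
    rw [sp_add (fun a => (h.order i (by omega)).refl a) (h.step i (by omega)), ih (by omega)]

theorem ic_chain {n : ℕ} {r : ℕ → Fin n → Fin n → Prop} (h : IsMaximalChain n r) :
    ∀ i ≤ n.choose 2, (ic (r i)).card = 2 * (n.choose 2 - i) := by
  intro i hi
  have h1 := sp_ic (h.order i hi)
  rw [sp_chain h i hi, Fintype.card_fin] at h1
  omega

theorem card_le_ic {α : Type} [Fintype α] {r : α → α → Prop} (hr : IsPartialOrder α r)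
    (h : ¬ HasFPP r) : Fintype.card α ≤ (ic r).card := by
  classical
  choose g hg using exists_incomp hr h
  have h1 : ((Finset.univ : Finset α).image (fun x => (x, g x))).card = Fintype.card α := by
    rw [Finset.card_image_of_injective, Finset.card_univ]
    intro a b hab
    exact (Prod.mk.injEq _ _ _ _ ▸ hab).1
  rw [← h1]
  apply Finset.card_le_card
  intro p hp
  rw [Finset.mem_image] at hp
  obtain ⟨x, _, rfl⟩ := hp
  rw [mem_ic]
  exact hg x

/-- if the number of incomparable pairs is exactly `|α|`, partners are unique -/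
theorem partner_unique {α : Type} [Fintype α] {r : α → α → Prop} (hr : IsPartialOrder α r)
    (h : ¬ HasFPP r) (hc : (ic r).card = Fintype.card α) {x y z : α}
    (h1 : ¬ r x y ∧ ¬ r y x) (h2 : ¬ r x z ∧ ¬ r z x) : y = z := by
  classical
  have himg : (ic r).image Prod.fst = Finset.univ := by
    ext a
    simp only [Finset.mem_image, Prod.exists, exists_and_right, exists_eq_right,
      Finset.mem_univ, iff_true]
    obtain ⟨b, hb⟩ := exists_incomp hr h a
    exact ⟨b, mem_ic.2 hb⟩
  have hinj : Set.InjOn Prod.fst ((ic r : Finset (α × α)) : Set (α × α)) := by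
    rw [← Finset.card_image_iff, himg, Finset.card_univ, hc]
  have := hinj (Finset.mem_coe.2 (mem_ic.2 h1 : (x, y) ∈ ic r))
    (Finset.mem_coe.2 (mem_ic.2 h2 : (x, z) ∈ ic r)) rfl
  exact (Prod.mk.injEq _ _ _ _ ▸ this).2

/-- the predecessor of an order in which every element has exactly one incomparable partner -/
theorem pred_fpp {α : Type} [Fintype α] {r s : α → α → Prop} (hr : IsPartialOrder α r)
    (hs : IsPartialOrder α s) (hadd : AddsOne r s) (h : ¬ HasFPP s)
    (hc : (ic s).card = Fintype.card α) : HasFPP r := by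
  obtain ⟨x, y, hxy, hrs⟩ := hadd
  have hle : ∀ a b, r a b → s a b := fun a b hab => (hrs a b).2 (Or.inl hab)
  have hsxy : s x y := (hrs x y).2 (Or.inr ⟨rfl, rfl⟩)
  have hne : x ≠ y := by
    rintro rfl
    exact hxy (hr.refl _)
  have uniq := fun {a b c : α} => @partner_unique α _ s hs h hc a b c
  obtain ⟨x', hx'⟩ := exists_incomp hs h x
  obtain ⟨y', hy'⟩ := exists_incomp hs h y
  have hx's : ¬ s x' x ∧ ¬ s x x' := ⟨hx'.2, hx'.1⟩
  have hy's : ¬ s y' y ∧ ¬ s y y' := ⟨hy'.2, hy'.1⟩
  have hx'y : x' ≠ y := by
    rintro rfl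
    exact hx'.1 hsxy
  have hy'x : y' ≠ x := by
    rintro rfl
    exact hy'.2 hsxy
  -- comparabilities of `x'`
  have cx' : ∀ z, z ≠ x → s x' z ∨ s z x' := by
    intro z hz
    by_contra hcon
    push Not at hcon
    exact hz (uniq hcon hx's)
  have cy' : ∀ z, z ≠ y → s y' z ∨ s z y' := by
    intro z hz
    by_contra hcon
    push Not at hcon
    exact hz (uniq hcon hy's)
  -- `x' < y'`
  have hx'y's : s x' y' := by
    rcases cx' y' hy'x with h1 | h1
    · exact h1
    · rcases cx' y hne.symm with h2 | h2
      · exact absurd (hs.trans _ _ _ h1 h2) hy'.2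
      · exact absurd (hs.trans _ _ _ hsxy h2) hx'.1
  have hx'y'r : r x' y' := by
    rcases (hrs x' y').1 hx'y's with h1 | ⟨h1, _⟩
    · exact h1
    · rw [h1] at hx'
      exact absurd (hs.refl _) hx'.1
  intro f hf
  by_cases hfx : f x' = x
  · by_cases hfy : f y' = y
    · have := hf _ _ hx'y'r
      rw [hfx, hfy] at this
      exact absurd this hxy
    · refine fix_of_comp hr f hf y' ?_
      rcases cy' _ hfy with h1 | h1
      · rcases (hrs _ _).1 h1 with h2 | ⟨h2, _⟩
        · exact Or.inl h2
        · exact absurd h2 hy'x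
      · rcases (hrs _ _).1 h1 with h2 | ⟨_, h2⟩
        · exact Or.inr h2
        · rw [h2] at hy'
          exact absurd (hs.refl _) hy'.1
  · refine fix_of_comp hr f hf x' ?_
    rcases cx' _ hfx with h1 | h1
    · rcases (hrs _ _).1 h1 with h2 | ⟨h2, _⟩
      · exact Or.inl h2
      · rw [h2] at hx'
        exact absurd (hs.refl _) hx'.1
    · rcases (hrs _ _).1 h1 with h2 | ⟨_, h2⟩
      · exact Or.inr h2
      · exact absurd h2 hx'y

/-! ### The lower bound -/

theorem fpp_top {n : ℕ} {r : ℕ → Fin n → Fin n → Prop} (h : IsMaximalChain n r) {i : ℕ}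
    (hi : i ≤ n.choose 2) (h2 : 2 * (n.choose 2 - i) < n) : HasFPP (r i) := by
  by_contra hcon
  have := card_le_ic (h.order i hi) hcon
  rw [ic_chain h i hi, Fintype.card_fin] at this
  omega

theorem choose_two_large {n : ℕ} (hn : 3 ≤ n) : n / 2 + 1 ≤ n.choose 2 := by
  have h1 : n - 1 ≤ n.choose 2 := by
    obtain ⟨m, rfl⟩ : ∃ m, n = m + 1 := ⟨n - 1, by omega⟩
    rw [Nat.choose_succ_succ' m 1, Nat.choose_one_right]
    simp
  rcases Nat.lt_or_ge n 4 with h | h
  · obtain rfl : n = 3 := by omega
    decide
  · omega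

theorem lower {n : ℕ} (hn : 3 ≤ n) {r : ℕ → Fin n → Fin n → Prop} (h : IsMaximalChain n r) :
    n / 2 + 1 ≤ fppCount n r := by
  classical
  have hN := choose_two_large hn
  set N := n.choose 2 with hNdef
  have hcount : fppCount n r =
      ((Finset.range (N + 1)).filter (fun i => HasFPP (r i))).card := by
    unfold fppCount
    congr
  rw [hcount]
  rcases Nat.even_or_odd' n with ⟨m, hm | hm⟩
  · -- even
    have key : HasFPP (r (N - m)) ∨ HasFPP (r (N - m - 1)) := by
      by_cases h1 : HasFPP (r (N - m))
      · exact Or.inl h1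
      · right
        have hstep := h.step (N - m - 1) (by omega)
        rw [show N - m - 1 + 1 = N - m by omega] at hstep
        refine pred_fpp (h.order _ (by omega)) (h.order _ (by omega)) hstep h1 ?_
        rw [ic_chain h _ (by omega), Fintype.card_fin]
        omega
    obtain ⟨j, hj, hjf⟩ : ∃ j, j ≤ N - m ∧ HasFPP (r j) := by
      rcases key with h1 | h1
      · exact ⟨_, le_refl _, h1⟩
      · exact ⟨_, by omega, h1⟩
    have hsub : insert j (Finset.Ioc (N - m) N) ⊆
        (Finset.range (N + 1)).filter (fun i => HasFPP (r i)) := by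
      intro i hi
      rw [Finset.mem_insert, Finset.mem_Ioc] at hi
      rw [Finset.mem_filter, Finset.mem_range]
      rcases hi with rfl | hi
      · exact ⟨by omega, hjf⟩
      · exact ⟨by omega, fpp_top h (by omega) (by omega)⟩
    have hcard := Finset.card_le_card hsub
    rw [Finset.card_insert_of_notMem (by rw [Finset.mem_Ioc]; omega), Nat.card_Ioc] at hcard
    omega
  · have hsub : Finset.Icc (N - m) N ⊆
        (Finset.range (N + 1)).filter (fun i => HasFPP (r i)) := by
      intro i hi
      rw [Finset.mem_Icc] at hi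
      rw [Finset.mem_filter, Finset.mem_range]
      exact ⟨by omega, fpp_top h (by omega) (by omega)⟩
    have hcard := Finset.card_le_card hsub
    rw [Nat.card_Icc] at hcard
    omega

/-! ### Filling intervals of order relations -/

theorem exists_adds {α : Type} [Fintype α] {r s : α → α → Prop} (hr : IsPartialOrder α r)
    (hs : IsPartialOrder α s) (hle : ∀ a b, r a b → s a b) (hne : ∃ a b, s a b ∧ ¬ r a b) :
    ∃ v, IsPartialOrder α v ∧ AddsOne r v ∧ (∀ a b, v a b → s a b) := by
  classical
  let μ : α × α → ℕ := fun p =>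
    (Finset.univ.filter (fun z => r z p.1)).card + (Finset.univ.filter (fun z => r p.2 z)).card
  let D : Finset (α × α) := Finset.univ.filter (fun p => s p.1 p.2 ∧ ¬ r p.1 p.2)
  have hD : D.Nonempty := by
    obtain ⟨a, b, h1, h2⟩ := hne
    exact ⟨(a, b), by simp [D, h1, h2]⟩
  obtain ⟨⟨x, y⟩, hxy, hmin⟩ := Finset.exists_min_image D μ hD
  have hxy' : s x y ∧ ¬ r x y := by simpa [D] using hxy
  obtain ⟨hsxy, hrxy⟩ := hxy'
  have hmin' : ∀ a b, s a b → ¬ r a b → μ (x, y) ≤ μ (a, b) := by
    intro a b h1 h2
    exact hmin (a, b) (by simp [D, h1, h2])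
  have hdown : ∀ z, r z x → z ≠ x → r z y := by
    intro z hz hzx
    by_contra hzy
    have h1 := hmin' z y (hs.trans _ _ _ (hle _ _ hz) hsxy) hzy
    have h2 : (Finset.univ.filter (fun w => r w z)).card < (Finset.univ.filter (fun w => r w x)).card := by
      apply Finset.card_lt_card
      rw [Finset.ssubset_iff_of_subset]
      · refine ⟨x, by simp [hr.refl x], ?_⟩
        simp only [Finset.mem_filter, Finset.mem_univ, true_and]
        intro h3
        exact hzx (hr.antisymm _ _ hz h3)
      · intro w hw
        simp only [Finset.mem_filter, Finset.mem_univ, true_and] at hw ⊢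
        exact hr.trans _ _ _ hw hz
    simp only [μ] at h1
    omega
  have hup : ∀ z, r y z → z ≠ y → r x z := by
    intro z hz hzy
    by_contra hxz
    have h1 := hmin' x z (hs.trans _ _ _ hsxy (hle _ _ hz)) hxz
    have h2 : (Finset.univ.filter (fun w => r z w)).card < (Finset.univ.filter (fun w => r y w)).card := by
      apply Finset.card_lt_card
      rw [Finset.ssubset_iff_of_subset]
      · refine ⟨y, by simp [hr.refl y], ?_⟩
        simp only [Finset.mem_filter, Finset.mem_univ, true_and]
        intro h3
        exact hzy (hr.antisymm _ _ h3 hz)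
      · intro w hw
        simp only [Finset.mem_filter, Finset.mem_univ, true_and] at hw ⊢
        exact hr.trans _ _ _ hz hw
    simp only [μ] at h1
    omega
  have hnexy : x ≠ y := by
    rintro rfl
    exact hrxy (hr.refl _)
  refine ⟨fun a b => r a b ∨ (a = x ∧ b = y), ?_, ⟨x, y, hrxy, fun a b => Iff.rfl⟩, ?_⟩
  · refine { refl := fun a => Or.inl (hr.refl a), trans := ?_, antisymm := ?_ }
    · rintro a b c (h1 | ⟨rfl, rfl⟩) (h2 | ⟨h2, h3⟩)
      · exact Or.inl (hr.trans _ _ _ h1 h2)
      · subst h2 h3
        by_cases hab : a = b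
        · subst hab
          exact Or.inr ⟨rfl, rfl⟩
        · exact Or.inl (hdown _ h1 hab)
      · by_cases hcb : c = b
        · subst hcb
          exact Or.inr ⟨rfl, rfl⟩
        · exact Or.inl (hup _ h2 hcb)
      · exact absurd h2.symm hnexy
    · rintro a b (h1 | ⟨rfl, rfl⟩) (h2 | ⟨h2, h3⟩)
      · exact hr.antisymm _ _ h1 h2
      · subst h2 h3
        exact absurd (hs.antisymm _ _ hsxy (hle _ _ h1)) hnexy
      · exact hs.antisymm _ _ hsxy (hle _ _ h2)
      · exact absurd h2.symm hnexy
  · rintro a b (h1 | ⟨rfl, rfl⟩)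
    · exact hle _ _ h1
    · exact hsxy

/-- a step of a chain inside the property `Q` -/
def Stp {α : Type} (Q : (α → α → Prop) → Prop) (r s : α → α → Prop) : Prop :=
  IsPartialOrder α s ∧ AddsOne r s ∧ Q s

theorem interval {α : Type} [Fintype α] (Q : (α → α → Prop) → Prop) {s : α → α → Prop}
    (hs : IsPartialOrder α s) :
    ∀ (k : ℕ) (r : α → α → Prop), (Fintype.card α).choose 2 - (sp r).card = k →
      IsPartialOrder α r → (∀ a b, r a b → s a b) →
      (∀ v, IsPartialOrder α v → (∀ a b, r a b → v a b) → (∀ a b, v a b → s a b) → Q v) →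
      ReflTransGen (Stp Q) r s := by
  intro k
  induction k using Nat.strong_induction_on with
  | _ k ih =>
    intro r hk hr hle hQ
    by_cases hne : ∃ a b, s a b ∧ ¬ r a b
    · obtain ⟨v, hv, hadd, hvs⟩ := exists_adds hr hs hle hne
      have hrv : ∀ a b, r a b → v a b := by
        obtain ⟨x, y, _, h⟩ := hadd
        exact fun a b hab => (h a b).2 (Or.inl hab)
      have h1 := sp_add (fun a => hr.refl a) hadd
      have h2 := sp_ic hv
      refine ReflTransGen.head ⟨hv, hadd, hQ v hv hrv hvs⟩ ?_
      exact ih _ (by omega) v rfl hv hvs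
        (fun w hw h3 h4 => hQ w hw (fun a b hab => h3 _ _ (hrv _ _ hab)) h4)
    · push Not at hne
      have : r = s := by
        funext a b
        exact propext ⟨hle a b, hne a b⟩
      rw [this]

/-- a chain as a sequence -/
theorem seq_of {α : Type} [Fintype α] {Q : (α → α → Prop) → Prop} {r s : α → α → Prop}
    (h : ReflTransGen (Stp Q) r s) :
    ∃ (k : ℕ) (f : ℕ → α → α → Prop), f 0 = r ∧ f k = s ∧ ∀ i < k, Stp Q (f i) (f (i + 1)) := by
  induction h with
  | refl => exact ⟨0, fun _ => r, rfl, rfl, fun i hi => absurd hi (by omega)⟩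
  | @tail b c _ hbc ih =>
    obtain ⟨k, f, h0, hk, hf⟩ := ih
    refine ⟨k + 1, fun i => if i ≤ k then f i else c, by simp [h0], by simp, ?_⟩
    intro i hi
    rcases Nat.lt_or_ge i k with h | h
    · show Stp Q (if i ≤ k then f i else c) (if i + 1 ≤ k then f (i + 1) else c)
      rw [if_pos h.le, if_pos (by omega)]
      exact hf i h
    · have : i = k := by omega
      subst this
      show Stp Q (if i ≤ i then f i else c) (if i + 1 ≤ i then f (i + 1) else c)
      rw [if_pos (le_refl _), if_neg (by omega), hk]
      exact hbc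

/-! ### Orders without the fixed point property -/

/-- property `N`: no fixed point property -/
def NF {α : Type} (r : α → α → Prop) : Prop := ¬ HasFPP r

/-- an isolated point and another point -/
theorem nf_isolated {α : Type} {r : α → α → Prop} (hr : ∀ a, r a a) (z w : α) (hzw : z ≠ w)
    (h : ∀ a b, r a b → a ≠ b → a ≠ z ∧ b ≠ z) : NF r := by
  classical
  intro hF
  obtain ⟨x, hx⟩ := hF (fun a => if a = z then w else z) (by
    intro a b hab
    by_cases he : a = b
    · subst he
      exact hr _
    · obtain ⟨h1, h2⟩ := h a b hab he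
      rw [if_neg h1, if_neg h2]
      exact hr _)
  by_cases hxz : x = z
  · subst hxz
    simp at hx
    exact hzw hx.symm
  · simp only [hxz, if_false] at hx
    exact hxz hx.symm

/-- two incomparable points below everything -/
def A2 {α : Type} (q : α → α → Prop) : Bool ⊕ α → Bool ⊕ α → Prop
  | Sum.inl a, Sum.inl b => a = b
  | Sum.inl _, Sum.inr _ => True
  | Sum.inr _, Sum.inl _ => False
  | Sum.inr x, Sum.inr y => q x y

theorem A2_po {α : Type} {q : α → α → Prop} (hq : IsPartialOrder α q) :
    IsPartialOrder (Bool ⊕ α) (A2 q) where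
  refl a := by
    cases a
    · exact rfl
    · exact hq.refl _
  trans a b c h1 h2 := by
    rcases a with a | a <;> rcases b with b | b <;> rcases c with c | c <;>
      simp only [A2] at h1 h2 ⊢
    · exact h1.trans h2
    · exact hq.trans _ _ _ h1 h2
  antisymm a b h1 h2 := by
    rcases a with a | a <;> rcases b with b | b <;> simp only [A2] at h1 h2
    · rw [h1]
    · rw [hq.antisymm _ _ h1 h2]

theorem A2_adds {α : Type} {q q' : α → α → Prop} (h : AddsOne q q') : AddsOne (A2 q) (A2 q') := by
  obtain ⟨x, y, hxy, hq⟩ := h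
  refine ⟨Sum.inr x, Sum.inr y, hxy, ?_⟩
  intro a b
  rcases a with a | a <;> rcases b with b | b <;> simp [A2, hq]

theorem A2_nf {α : Type} {q : α → α → Prop} (h : NF q) : NF (A2 q) := by
  intro hF
  apply h
  intro g hg
  obtain ⟨x, hx⟩ := hF (Sum.map (fun b => !b) g) (by
    intro a b hab
    rcases a with a | a <;> rcases b with b | b <;> simp only [A2, Sum.map_inl, Sum.map_inr] at hab ⊢
    · rw [hab]
    · exact hg _ _ hab)
  rcases x with x | x
  · simp at hx
  · simp only [Sum.map_inr, Sum.inr.injEq] at hx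
    exact ⟨x, hx⟩

/-- the crown on `Bool` and `p, q`, all other points isolated -/
def Crown {α : Type} (p q : α) : Bool ⊕ α → Bool ⊕ α → Prop
  | Sum.inl a, Sum.inl b => a = b
  | Sum.inl _, Sum.inr x => x = p ∨ x = q
  | Sum.inr _, Sum.inl _ => False
  | Sum.inr x, Sum.inr y => x = y

theorem crown_po {α : Type} (p q : α) : IsPartialOrder (Bool ⊕ α) (Crown p q) where
  refl a := by
    cases a <;> exact rfl
  trans a b c h1 h2 := by
    rcases a with a | a <;> rcases b with b | b <;> rcases c with c | c <;>
      simp only [Crown] at h1 h2 ⊢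
    · exact h1.trans h2
    · exact h2
    · rw [← h2]; exact h1
    · exact h1.trans h2
  antisymm a b h1 h2 := by
    rcases a with a | a <;> rcases b with b | b <;> simp only [Crown] at h1 h2
    · rw [h1]
    · rw [h1]

theorem eq_po (α : Type) : IsPartialOrder α (fun a b => a = b) where
  refl _ := rfl
  trans _ _ _ h1 h2 := h1.trans h2
  antisymm _ _ h1 _ := h1

/-- from the discrete order to two points below an antichain, never with the fixed point
property -/
theorem phase {α : Type} [Fintype α] (p q z : α) (hpq : p ≠ q) (hpz : p ≠ z) (hqz : q ≠ z) :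
    ReflTransGen (Stp NF) (fun a b : Bool ⊕ α => a = b) (A2 (fun a b : α => a = b)) := by
  refine (interval NF (crown_po p q) _ _ rfl (eq_po _) ?_ ?_).trans
    (interval NF (A2_po (eq_po α)) _ _ rfl (crown_po p q) ?_ ?_)
  · rintro a b rfl
    exact (crown_po p q).refl _
  · intro v hv _ h2
    refine nf_isolated hv.refl (Sum.inr z) (Sum.inl true) (by simp) ?_
    intro a b hab hne
    have h3 := h2 _ _ hab
    rcases a with a | a <;> rcases b with b | b <;> simp only [Crown] at h3
    · exact absurd (congrArg _ h3) hne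
    · refine ⟨by simp, ?_⟩
      intro h4
      rw [Sum.inr.injEq] at h4
      rcases h3 with h3 | h3
      · exact hpz (h3.symm.trans h4)
      · exact hqz (h3.symm.trans h4)
    · exact absurd (congrArg _ h3) hne
  · rintro (a | a) (b | b) h <;> simp only [Crown, A2] at h ⊢
    · exact h
    · exact h
  · intro v hv h1 h2 hF
    classical
    obtain ⟨x, hx⟩ := hF (Sum.elim (fun b => Sum.inl (!b))
      (fun y => if y = p then Sum.inr q else Sum.inr p)) (by
      intro a b hab
      have h3 := h2 _ _ hab
      rcases a with a | a <;> rcases b with b | b <;> simp only [A2] at h3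
      · rw [h3]; exact hv.refl _
      · simp only [Sum.elim_inl, Sum.elim_inr]
        apply h1
        split_ifs
        · exact Or.inr rfl
        · exact Or.inl rfl
      · rw [h3]; exact hv.refl _)
    rcases x with x | x
    · simp at hx
    · simp only [Sum.elim_inr] at hx
      split_ifs at hx with h3
      · rw [Sum.inr.injEq] at hx
        exact hpq (h3.symm.trans hx.symm)
      · rw [Sum.inr.injEq] at hx
        exact h3 hx.symm

/-! ### The extremal orders -/

theorem sp_A2 {α : Type} [Fintype α] (q : α → α → Prop) :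
    (sp (A2 q)).card = 2 * Fintype.card α + (sp q).card := by
  classical
  have h1 : sp (A2 q) = ((Finset.univ : Finset (Bool × α)).image
      (fun p => ((Sum.inl p.1 : Bool ⊕ α), (Sum.inr p.2 : Bool ⊕ α)))) ∪
      ((sp q).image (fun p => ((Sum.inr p.1 : Bool ⊕ α), (Sum.inr p.2 : Bool ⊕ α)))) := by
    ext ⟨a, b⟩
    rw [mem_sp]
    simp only [Finset.mem_union, Finset.mem_image, Finset.mem_univ, true_and, Prod.mk.injEq,
      mem_sp, Prod.exists]
    rcases a with a | a <;> rcases b with b | b <;> simp [A2]
  rw [h1, Finset.card_union_of_disjoint, Finset.card_image_of_injective,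
    Finset.card_image_of_injective, Finset.card_univ, Fintype.card_prod, Fintype.card_bool]
  · rintro ⟨a, b⟩ ⟨c, d⟩ h
    simpa using h
  · rintro ⟨a, b⟩ ⟨c, d⟩ h
    simpa using h
  · rw [Finset.disjoint_left]
    rintro ⟨a, b⟩ ha hb
    simp only [Finset.mem_image, Finset.mem_univ, true_and, Prod.mk.injEq, Prod.exists] at ha hb
    obtain ⟨c, d, h1, h2⟩ := ha
    obtain ⟨c', d', _, h3, _⟩ := hb
    rw [← h1] at h3
    simp at h3

/-- chains from the discrete order through orders without the fixed point property -/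
def Good (n : ℕ) : Prop :=
  ∃ (α : Type) (_ : Fintype α) (s : α → α → Prop), Fintype.card α = n ∧ IsPartialOrder α s ∧
    ReflTransGen (Stp NF) (fun a b : α => a = b) s ∧ (sp s).card + (n / 2 + 1) = n.choose 2

theorem good_step {n : ℕ} (hn : 3 ≤ n) (h : Good n) : Good (n + 2) := by
  classical
  obtain ⟨α, inst, s, hcard, hs, hpath, hcount⟩ := h
  refine ⟨Bool ⊕ α, inferInstance, A2 s, ?_, A2_po hs, ?_, ?_⟩
  · rw [Fintype.card_sum, Fintype.card_bool, hcard]
    omega
  · have e : Fin n ≃ α := (Fintype.equivFinOfCardEq hcard).symm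
    have ne : ∀ i j : Fin n, i ≠ j → e i ≠ e j := fun i j hij h => hij (e.injective h)
    refine (phase (e ⟨0, by omega⟩) (e ⟨1, by omega⟩) (e ⟨2, by omega⟩)
      (ne _ _ (by simp)) (ne _ _ (by simp)) (ne _ _ (by simp))).trans ?_
    exact hpath.lift A2 (fun a b hab => ⟨A2_po hab.1, A2_adds hab.2.1, A2_nf hab.2.2⟩)
  · rw [sp_A2, hcard]
    have h1 : (n + 2).choose 2 = n.choose 2 + (2 * n + 1) := by
      have h2 := Nat.choose_succ_succ' (n + 1) 1
      have h3 := Nat.choose_succ_succ' n 1
      rw [Nat.choose_one_right] at h2 h3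
      show (n + 1 + 1).choose (1 + 1) = n.choose (1 + 1) + (2 * n + 1)
      omega
    rw [h1]
    omega

/-- a chain on the points other than the last, which is isolated -/
def B (n : ℕ) (a b : Fin n) : Prop := a = b ∨ (a < b ∧ (b : ℕ) + 1 < n)

instance (n : ℕ) (a b : Fin n) : Decidable (B n a b) := by unfold B; infer_instance

theorem B_po (n : ℕ) : IsPartialOrder (Fin n) (B n) where
  refl a := Or.inl rfl
  trans a b c h1 h2 := by
    rcases h1 with rfl | ⟨h1, h1'⟩
    · exact h2
    · rcases h2 with rfl | ⟨h2, h2'⟩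
      · exact Or.inr ⟨h1, h1'⟩
      · exact Or.inr ⟨h1.trans h2, h2'⟩
  antisymm a b h1 h2 := by
    rcases h1 with h1 | ⟨h1, _⟩
    · exact h1
    · rcases h2 with h2 | ⟨h2, _⟩
      · exact h2.symm
      · exact absurd (h1.trans h2) (lt_irrefl _)

theorem good_base {n : ℕ} (hn : 3 ≤ n) (hc : (sp (B n)).card + (n / 2 + 1) = n.choose 2) :
    Good n := by
  refine ⟨Fin n, inferInstance, B n, Fintype.card_fin n, B_po n, ?_, hc⟩
  refine interval NF (B_po n) _ _ rfl (eq_po _) (fun a b h => Or.inl h) ?_
  intro v hv _ h2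
  refine nf_isolated hv.refl ⟨n - 1, by omega⟩ ⟨0, by omega⟩ (by simp; omega) ?_
  intro a b hab hne
  rcases h2 _ _ hab with h3 | ⟨h3, h4⟩
  · exact absurd h3 hne
  · constructor
    · rintro rfl
      have h3' : n - 1 < (b : ℕ) := h3
      omega
    · rintro rfl
      simp only at h4
      omega

theorem good_all : ∀ n, 3 ≤ n → Good n := by
  intro n
  induction n using Nat.strong_induction_on with
  | _ n ih =>
    intro hn
    rcases Nat.lt_or_ge n 5 with h | h
    · have : n = 3 ∨ n = 4 := by omega
      rcases this with rfl | rfl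
      · apply good_base (by norm_num)
        have : sp (B 3) = Finset.univ.filter (fun p : Fin 3 × Fin 3 => p.1 ≠ p.2 ∧ B 3 p.1 p.2) := by
          ext p; simp [mem_sp]
        rw [this]
        decide
      · apply good_base (by norm_num)
        have : sp (B 4) = Finset.univ.filter (fun p : Fin 4 × Fin 4 => p.1 ≠ p.2 ∧ B 4 p.1 p.2) := by
          ext p; simp [mem_sp]
        rw [this]
        decide
    · have := good_step (n := n - 2) (by omega) (ih (n - 2) (by omega) (by omega))
      rwa [show n - 2 + 2 = n by omega] at this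

/-! ### The upper bound -/

theorem eq_nf {α : Type} (z w : α) (h : z ≠ w) : NF (fun a b : α => a = b) :=
  nf_isolated (fun _ => rfl) z w h (fun _ _ hab hne => absurd hab hne)

theorem upper {n : ℕ} (hn : 3 ≤ n) : ∃ r, IsMaximalChain n r ∧ fppCount n r ≤ n / 2 + 1 := by
  classical
  obtain ⟨α, inst, s, hcard, hs, hpath, hcount⟩ := good_all n hn
  obtain ⟨k, f, hf0, hfk, hf⟩ := seq_of hpath
  -- a linear extension
  have _ := hs
  obtain ⟨l, hl, hsl⟩ := extend_partialOrder s
  have hlpo : IsPartialOrder α l := hl.toIsPartialOrder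
  obtain ⟨m, g, hg0, hgm, hg⟩ := seq_of
    (interval (fun _ => True) hlpo _ s rfl hs (fun a b h => hsl _ _ h) (fun _ _ _ _ => trivial))
  -- numbers of pairs
  have hfpo : ∀ i ≤ k, IsPartialOrder α (f i) := by
    intro i hi
    rcases Nat.eq_zero_or_pos i with rfl | h
    · rw [hf0]; exact eq_po α
    · have := (hf (i - 1) (by omega)).1
      rwa [show i - 1 + 1 = i by omega] at this
  have hgpo : ∀ i ≤ m, IsPartialOrder α (g i) := by
    intro i hi
    rcases Nat.eq_zero_or_pos i with rfl | h
    · rw [hg0]; exact hs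
    · have := (hg (i - 1) (by omega)).1
      rwa [show i - 1 + 1 = i by omega] at this
  have hfc : ∀ i ≤ k, (sp (f i)).card = i := by
    intro i
    induction i with
    | zero =>
      intro _
      rw [hf0, Finset.card_eq_zero]
      ext p
      rw [mem_sp]
      simp
    | succ i ih =>
      intro hi
      rw [sp_add (fun a => (hfpo i (by omega)).refl a) (hf i (by omega)).2.1, ih (by omega)]
  have hgc : ∀ i ≤ m, (sp (g i)).card = k + i := by
    intro i
    induction i with
    | zero =>
      intro _
      rw [hg0, ← hfk, hfc k (le_refl _)]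
      rfl
    | succ i ih =>
      intro hi
      rw [sp_add (fun a => (hgpo i (by omega)).refl a) (hg i (by omega)).2.1, ih (by omega)]
      rfl
  have hk : k + (n / 2 + 1) = n.choose 2 := by
    rw [← hcount, ← hfk, hfc k (le_refl _)]
  have hm : k + m = n.choose 2 := by
    have h1 := sp_ic hlpo
    have h2 : ic l = ∅ := by
      ext p
      rw [mem_ic]
      simp only [Finset.notMem_empty, iff_false, not_and, not_not]
      intro h
      exact (hl.total p.1 p.2).resolve_left h
    rw [h2, Finset.card_empty, hcard, ← hgm, hgc m (le_refl _)] at h1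
    omega
  have e : Fin n ≃ α := (Fintype.equivFinOfCardEq hcard).symm
  let F : ℕ → α → α → Prop := fun i => if i ≤ k then f i else g (i - k)
  have hF0 : F 0 = fun a b => a = b := by simp [F, hf0]
  have hFk : ∀ i, k ≤ i → F i = g (i - k) := by
    intro i hi
    rcases Nat.eq_or_lt_of_le hi with rfl | h
    · simp [F, hfk, hg0]
    · simp only [F]
      rw [if_neg (by omega)]
  have hFpo : ∀ i ≤ n.choose 2, IsPartialOrder α (F i) := by
    intro i hi
    rcases Nat.lt_or_ge i k with h | h
    · simp only [F]
      rw [if_pos h.le]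
      exact hfpo i h.le
    · rw [hFk i h]
      exact hgpo _ (by omega)
  have hFstep : ∀ i < n.choose 2, AddsOne (F i) (F (i + 1)) := by
    intro i hi
    rcases Nat.lt_or_ge i k with h | h
    · simp only [F]
      rw [if_pos h.le, if_pos (by omega)]
      exact (hf i h).2.1
    · rw [hFk i h, hFk (i + 1) (by omega), show i + 1 - k = i - k + 1 by omega]
      exact (hg (i - k) (by omega)).2.1
  have hFnf : ∀ i ≤ k, ¬ HasFPP (F i) := by
    intro i hi
    simp only [F]
    rw [if_pos hi]
    rcases Nat.eq_zero_or_pos i with rfl | h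
    · rw [hf0]
      have : e ⟨0, by omega⟩ ≠ e ⟨1, by omega⟩ := fun h => by
        have := e.injective h
        simp at this
      exact eq_nf _ _ this
    · have := (hf (i - 1) (by omega)).2.2
      rwa [show i - 1 + 1 = i by omega] at this
  refine ⟨fun i a b => F i (e a) (e b), ?_, ?_⟩
  · refine ⟨?_, ?_, ?_, ?_⟩
    · intro a b
      simp only [hF0]
      exact e.injective.eq_iff
    · intro i hi
      have := hFpo i hi
      exact { refl := fun a => this.refl _
              trans := fun a b c => this.trans _ _ _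
              antisymm := fun a b h1 h2 => e.injective (this.antisymm _ _ h1 h2) }
    · intro i hi
      obtain ⟨x, y, hxy, h⟩ := hFstep i hi
      refine ⟨e.symm x, e.symm y, by simpa using hxy, ?_⟩
      intro a b
      show F (i + 1) (e a) (e b) ↔ F i (e a) (e b) ∨ a = e.symm x ∧ b = e.symm y
      rw [h, Equiv.eq_symm_apply, Equiv.eq_symm_apply]
    · intro a b
      show F (n.choose 2) (e a) (e b) ∨ F (n.choose 2) (e b) (e a)
      rw [hFk _ (by omega), show n.choose 2 - k = m by omega, hgm]
      exact hl.total _ _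
  · have hsub : (Finset.range (n.choose 2 + 1)).filter
        (fun i => HasFPP (fun a b : Fin n => F i (e a) (e b))) ⊆ Finset.Ioc k (n.choose 2) := by
      intro i hi
      rw [Finset.mem_filter, Finset.mem_range] at hi
      rw [Finset.mem_Ioc]
      refine ⟨?_, by omega⟩
      by_contra hik
      apply hFnf i (by omega)
      intro φ hφ
      obtain ⟨x, hx⟩ := hi.2 (fun a => e.symm (φ (e a))) (by
        intro a b hab
        simpa using hφ _ _ hab)
      refine ⟨e x, ?_⟩
      have := congrArg e hx
      simpa using this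
    have h1 := Finset.card_le_card hsub
    rw [Nat.card_Ioc] at h1
    have h2 : fppCount n (fun i a b => F i (e a) (e b)) =
        ((Finset.range (n.choose 2 + 1)).filter
          (fun i => HasFPP (fun a b : Fin n => F i (e a) (e b)))).card := by
      unfold fppCount
      congr
    rw [h2]
    omega

/-! ### The result -/

theorem one_le {n : ℕ} (hn : 1 ≤ n) {r : ℕ → Fin n → Fin n → Prop} (h : IsMaximalChain n r) :
    1 ≤ fppCount n r := by
  classical
  unfold fppCount
  rw [Nat.one_le_iff_ne_zero, Finset.card_ne_zero]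
  refine ⟨n.choose 2, ?_⟩
  rw [Finset.mem_filter, Finset.mem_range]
  refine ⟨by omega, fun f hf => ?_⟩
  exact fix_of_comp (h.order _ (le_refl _)) f hf ⟨0, hn⟩ (h.last _ _)

theorem small_chain {n : ℕ} (h1 : 1 ≤ n) (h2 : n ≤ 2) :
    IsMaximalChain n (fun i a b => a = b ∨ (1 ≤ i ∧ a ≤ b)) := by
  have h12 : n = 1 ∨ n = 2 := by omega
  refine ⟨?_, ?_, ?_, ?_⟩
  · intro a b
    simp
  · intro i _
    refine { refl := fun a => Or.inl rfl, trans := ?_, antisymm := ?_ }
    · rintro a b c (rfl | ⟨h3, h4⟩) (rfl | ⟨h5, h6⟩)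
      · exact Or.inl rfl
      · exact Or.inr ⟨h5, h6⟩
      · exact Or.inr ⟨h3, h4⟩
      · exact Or.inr ⟨h3, h4.trans h6⟩
    · rintro a b (h3 | ⟨_, h4⟩) (h5 | ⟨_, h6⟩)
      · exact h3
      · exact h3
      · exact h5.symm
      · exact le_antisymm h4 h6
  · intro i hi
    rcases h12 with rfl | rfl
    · simp at hi
    · have hi0 : i = 0 := by
        have : (2 : ℕ).choose 2 = 1 := by decide
        omega
      subst hi0
      refine ⟨0, 1, by simp, ?_⟩
      decide
  · intro a b
    rcases h12 with rfl | rfl
    · exact Or.inl (Or.inl (Subsingleton.elim a b))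
    · rcases le_total a b with h | h
      · exact Or.inl (Or.inr ⟨by decide, h⟩)
      · exact Or.inr (Or.inr ⟨by decide, h⟩)

/-- **Q1 of MP_eb30e1_co.** For every `n ≥ 1`, the smallest number of members with the fixed point
property of a maximal chain of order relations on `[n]` is `⌊n / 2⌋ + 1`, except that it is `1` for
`n = 2`. -/
theorem result (n : ℕ) (hn : 1 ≤ n) :
    IsLeast {c : ℕ | ∃ r : ℕ → Fin n → Fin n → Prop, IsMaximalChain n r ∧ fppCount n r = c}
      (if n = 2 then 1 else n / 2 + 1) := by
  classical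
  rcases Nat.lt_or_ge n 3 with h3 | h3
  · have hval : (if n = 2 then 1 else n / 2 + 1) = 1 := by
      have : n = 1 ∨ n = 2 := by omega
      rcases this with rfl | rfl <;> simp
    rw [hval]
    have hup : ∀ r : ℕ → Fin n → Fin n → Prop, IsMaximalChain n r → fppCount n r ≤ 1 := by
      intro r hr
      have h12 : n = 1 ∨ n = 2 := by omega
      rcases h12 with rfl | rfl
      · unfold fppCount
        refine (Finset.card_filter_le _ _).trans ?_
        simp
      · unfold fppCount
        have hsub : (Finset.range ((2 : ℕ).choose 2 + 1)).filter (fun i => HasFPP (r i)) ⊆ {1} := by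
          intro i hi
          rw [Finset.mem_filter, Finset.mem_range] at hi
          obtain ⟨h1, h2⟩ := hi
          have h22 : (2 : ℕ).choose 2 = 1 := by decide
          rw [Finset.mem_singleton]
          by_contra hne
          have : i = 0 := by omega
          subst this
          have h0 : r 0 = fun a b => a = b := by
            funext a b
            exact propext (hr.start a b)
          rw [h0] at h2
          exact eq_nf (0 : Fin 2) 1 (by decide) h2
        have := Finset.card_le_card hsub
        simpa using this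
    refine ⟨⟨_, small_chain hn (by omega), ?_⟩, ?_⟩
    · exact le_antisymm (hup _ (small_chain hn (by omega))) (one_le hn (small_chain hn (by omega)))
    · rintro c ⟨r, hr, rfl⟩
      exact one_le hn hr
  · rw [if_neg (by omega)]
    obtain ⟨r, hr, hle⟩ := upper h3
    refine ⟨⟨r, hr, le_antisymm hle (lower h3 hr)⟩, ?_⟩
    rintro c ⟨r', hr', rfl⟩
    exact lower h3 hr'

end Pool.Agent.Results.MP_eb30e1_co.FewestFPP
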